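import Pool.Agent.Lib.MP_89d95d_co_h37.Defs

/-!
# Squares and cubes in the `i`-graph of a well-covered graph
-/

set_option autoImplicit false

namespace Pool.Agent.Lib.MP_89d95d_co_h37

open Finset

variable {V : Type} [DecidableEq V] {G : SimpleGraph V}

/-- Data of an edge of the `i`-graph. -/
lemma adj_data {X Y : {S : Finset V // IsISet G S}} (h : (iGraph G).Adj X Y) :
    ∃ u v, u ∈ X.1 ∧ v ∉ X.1 ∧ v ∈ Y.1 ∧ u ∉ Y.1 ∧ G.Adj u v ∧ Y.1 = insert v (X.1.erase u) := by
  obtain ⟨_, u, hu, v, hv, huv, hY⟩ := h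
  have hvX : v ∉ X.1 := fun h => X.2.1.1 u hu v h huv
  have huY : u ∉ Y.1 := fun h => Y.2.1.1 u h v hv huv
  exact ⟨u, v, hu, hvX, hv, huY, huv, hY⟩

/-- Two `i`-sets which differ by one element are adjacent (if one element is exchanged then the
two exchanged elements must be adjacent in `G`). -/
lemma adj_of {X Y : {S : Finset V // IsISet G S}} (u v : V) (hu : u ∈ X.1) (hv : v ∉ X.1)
    (hY : Y.1 = insert v (X.1.erase u)) : (iGraph G).Adj X Y := by
  have hvY : v ∈ Y.1 := by rw [hY]; exact mem_insert_self _ _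
  have hne : X ≠ Y := by
    rintro rfl; exact hv hvY
  refine ⟨hne, u, hu, v, hvY, ?_, hY⟩
  -- some element of `X` is adjacent to `v`, and it can only be `u`
  obtain ⟨w, hw, hwv⟩ := X.2.1.2 v hv
  by_cases hwu : w = u
  · rw [← hwu]; exact hwv
  · exfalso
    have hwY : w ∈ Y.1 := by rw [hY]; exact mem_insert_of_mem (mem_erase.mpr ⟨hwu, hw⟩)
    exact Y.2.1.1 w hwY v hvY hwv

omit [DecidableEq V] in
lemma card_eq_of_isISet {S T : Finset V} (hS : IsISet G S) (hT : IsISet G T) :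
    S.card = T.card := le_antisymm (hS.2 _ hT.1) (hT.2 _ hS.1)

/-- Two `i`-sets are adjacent exactly when they share all but one element. -/
lemma adj_iff_card {X Y : {S : Finset V // IsISet G S}} :
    (iGraph G).Adj X Y ↔ (X.1 ∩ Y.1).card + 1 = X.1.card := by
  constructor
  · intro h
    obtain ⟨u, v, hu, hv, hv', hu', huv, hY⟩ := adj_data h
    have : X.1 ∩ Y.1 = X.1.erase u := by
      ext w
      rw [mem_inter, hY, mem_insert, mem_erase]
      constructor
      · rintro ⟨h1, rfl | h2⟩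
        · exact absurd h1 hv
        · exact h2
      · intro h2; exact ⟨h2.2, Or.inr h2⟩
    rw [this, card_erase_add_one hu]
  · intro h
    have hc : X.1.card = Y.1.card := card_eq_of_isISet X.2 Y.2
    have h1 : (X.1 \ Y.1).card = 1 := by
      have := card_sdiff_add_card_inter X.1 Y.1
      omega
    have h2 : (Y.1 \ X.1).card = 1 := by
      have := card_sdiff_add_card_inter Y.1 X.1
      rw [inter_comm] at this
      omega
    obtain ⟨u, hu⟩ := card_eq_one.mp h1
    obtain ⟨v, hv⟩ := card_eq_one.mp h2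
    have hu' : u ∈ X.1 ∧ u ∉ Y.1 := by
      have : u ∈ X.1 \ Y.1 := by rw [hu]; exact mem_singleton_self u
      exact mem_sdiff.mp this
    have hv' : v ∈ Y.1 ∧ v ∉ X.1 := by
      have : v ∈ Y.1 \ X.1 := by rw [hv]; exact mem_singleton_self v
      exact mem_sdiff.mp this
    refine adj_of u v hu'.1 hv'.2 ?_
    ext w
    rw [mem_insert, mem_erase]
    constructor
    · intro hw
      by_cases hwX : w ∈ X.1
      · exact Or.inr ⟨fun h => hu'.2 (h ▸ hw), hwX⟩
      · have : w ∈ Y.1 \ X.1 := mem_sdiff.mpr ⟨hw, hwX⟩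
        rw [hv, mem_singleton] at this
        exact Or.inl this
    · rintro (rfl | ⟨hne, hwX⟩)
      · exact hv'.1
      · by_contra hwY
        have : w ∈ X.1 \ Y.1 := mem_sdiff.mpr ⟨hwX, hwY⟩
        rw [hu, mem_singleton] at this
        exact hne this

/-- The square lemma: two non-adjacent neighbours of `X` exchange different elements, and the
other common neighbour is obtained by performing both exchanges. -/
lemma square {X Y Z W : {S : Finset V // IsISet G S}} {x y x' z : V}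
    (hx : x ∈ X.1) (hy : y ∉ X.1) (hxy : G.Adj x y) (hY : Y.1 = insert y (X.1.erase x))
    (hx' : x' ∈ X.1) (hz : z ∉ X.1) (hxz : G.Adj x' z) (hZ : Z.1 = insert z (X.1.erase x'))
    (hYZ : Y ≠ Z) (hnYZ : ¬ (iGraph G).Adj Y Z) (hYW : (iGraph G).Adj Y W)
    (hZW : (iGraph G).Adj Z W) (hXW : X ≠ W) :
    x ≠ x' ∧ y ≠ z ∧ y ∈ W.1 ∧ z ∈ W.1 ∧ W.1 = insert z (insert y ((X.1.erase x).erase x')) := by
  have hyY : y ∈ Y.1 := by rw [hY]; exact mem_insert_self _ _
  have hzZ : z ∈ Z.1 := by rw [hZ]; exact mem_insert_self _ _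
  have hne1 : x ≠ x' := by
    rintro rfl
    by_cases hyz : y = z
    · subst hyz; exact hYZ (Subtype.ext (by rw [hY, hZ]))
    · apply hnYZ
      refine adj_of y z hyY ?_ ?_
      · rw [hY, mem_insert, mem_erase]
        rintro (h | ⟨_, h⟩)
        · exact hyz h.symm
        · exact hz h
      · rw [hZ, hY, erase_insert (fun h => hy (mem_of_mem_erase h))]
  have hne2 : y ≠ z := by
    rintro rfl
    apply hnYZ
    have hx'Y : x' ∈ Y.1 := by
      rw [hY]; exact mem_insert_of_mem (mem_erase.mpr ⟨hne1.symm, hx'⟩)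
    exact absurd hxz (Y.2.1.1 x' hx'Y y hyY)
  have hx'Y : x' ∈ Y.1 := by
    rw [hY]; exact mem_insert_of_mem (mem_erase.mpr ⟨hne1.symm, hx'⟩)
  have hxZ : x ∈ Z.1 := by
    rw [hZ]; exact mem_insert_of_mem (mem_erase.mpr ⟨hne1, hx⟩)
  obtain ⟨p, q, hp, hq, hqW, hpW, hpq, hW⟩ := adj_data hYW
  obtain ⟨p', q', hp', hq', hqW', hpW', hpq', hW'⟩ := adj_data hZW
  -- `W` contains all of `Y` except `p`, and all of `Z` except `p'`
  have memY : ∀ w ∈ Y.1, w ≠ p → w ∈ W.1 := fun w hw hne => by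
    rw [hW]; exact mem_insert_of_mem (mem_erase.mpr ⟨hne, hw⟩)
  have memZ : ∀ w ∈ Z.1, w ≠ p' → w ∈ W.1 := fun w hw hne => by
    rw [hW']; exact mem_insert_of_mem (mem_erase.mpr ⟨hne, hw⟩)
  -- `W` cannot contain both ends of an edge
  have hp1 : p = x' ∨ p = y := by
    by_contra hcon
    push Not at hcon
    have hyW := memY y hyY (Ne.symm hcon.2)
    have hx'W := memY x' hx'Y (Ne.symm hcon.1)
    have hxp' : p' = x := by
      by_contra h
      exact W.2.1.1 x (memZ x hxZ (Ne.symm h)) y hyW hxy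
    have hzp' : p' = z := by
      by_contra h
      exact W.2.1.1 x' hx'W z (memZ z hzZ (Ne.symm h)) hxz
    rw [hxp'] at hzp'
    exact hz (hzp' ▸ hx)
  have hp2 : p' = x ∨ p' = z := by
    by_contra hcon
    push Not at hcon
    have hzW := memZ z hzZ (Ne.symm hcon.2)
    have hxW := memZ x hxZ (Ne.symm hcon.1)
    have h1 : p = y := by
      by_contra h
      exact W.2.1.1 x hxW y (memY y hyY (Ne.symm h)) hxy
    have h2 : p = x' := by
      by_contra h
      exact W.2.1.1 x' (memY x' hx'Y (Ne.symm h)) z hzW hxz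
    rw [h1] at h2
    exact hy (h2 ▸ hx')
  -- exclude `p = y`
  have hpx : p = x' := by
    rcases hp1 with h | h
    · exact h
    · exfalso
      subst h
      -- then `x' ∈ W`, so `z ∉ W`, so `p' = z` and `x ∈ W`; then `W = X`
      have hx'W : x' ∈ W.1 := memY x' hx'Y (by rintro rfl; exact hy hx')
      have hp'z : p' = z := by
        by_contra h
        exact W.2.1.1 x' hx'W z (memZ z hzZ (Ne.symm h)) hxz
      have hxW : x ∈ W.1 := memZ x hxZ (by rw [hp'z]; rintro rfl; exact hz hx)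
      apply hXW
      apply Subtype.ext
      have hqx : q = x := by
        rw [hW, mem_insert, mem_erase] at hxW
        rcases hxW with h | ⟨_, h⟩
        · exact h.symm
        · exfalso
          rw [hY, mem_insert, mem_erase] at h
          rcases h with h | h
          · exact hy (h ▸ hx)
          · exact h.1 rfl
      rw [hW, hY, hqx, erase_insert (fun h => hy (mem_of_mem_erase h)), insert_erase hx]
  have hyW : y ∈ W.1 := memY y hyY (by rw [hpx]; rintro rfl; exact hy hx')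
  have hp'x : p' = x := by
    rcases hp2 with h | h
    · exact h
    · exfalso
      have hxW : x ∈ W.1 := memZ x hxZ (by rw [h]; rintro rfl; exact hz hx)
      exact W.2.1.1 x hxW y hyW hxy
  have hzW : z ∈ W.1 := memZ z hzZ (by rw [hp'x]; rintro rfl; exact hz hx)
  refine ⟨hne1, hne2, hyW, hzW, ?_⟩
  have hqz : q = z := by
    rw [hW, mem_insert, mem_erase] at hzW
    rcases hzW with h | ⟨_, h⟩
    · exact h.symm
    · exfalso
      rw [hY, mem_insert, mem_erase] at h
      rcases h with h | h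
      · exact hne2 h.symm
      · exact hz h.2
  rw [hW, hY, hqz, hpx, erase_insert_of_ne (by rintro rfl; exact hy hx')]

/-- The cube lemma: in the `i`-graph of a well-covered graph, three squares around a vertex can be
completed to a cube. -/
theorem cube_completion [Fintype V] (hG : WellCovered G)
    {X Y₁ Y₂ Y₃ Z₁₂ Z₁₃ Z₂₃ : {S : Finset V // IsISet G S}}
    (h1 : (iGraph G).Adj X Y₁) (h2 : (iGraph G).Adj X Y₂) (h3 : (iGraph G).Adj X Y₃)
    (n12 : Y₁ ≠ Y₂) (n13 : Y₁ ≠ Y₃) (n23 : Y₂ ≠ Y₃)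
    (m12 : ¬ (iGraph G).Adj Y₁ Y₂) (m13 : ¬ (iGraph G).Adj Y₁ Y₃) (m23 : ¬ (iGraph G).Adj Y₂ Y₃)
    (a12 : (iGraph G).Adj Y₁ Z₁₂) (b12 : (iGraph G).Adj Y₂ Z₁₂) (x12 : X ≠ Z₁₂)
    (a13 : (iGraph G).Adj Y₁ Z₁₃) (b13 : (iGraph G).Adj Y₃ Z₁₃) (x13 : X ≠ Z₁₃)
    (a23 : (iGraph G).Adj Y₂ Z₂₃) (b23 : (iGraph G).Adj Y₃ Z₂₃) (x23 : X ≠ Z₂₃) :
    ∃ W, (iGraph G).Adj Z₁₂ W ∧ (iGraph G).Adj Z₁₃ W ∧ (iGraph G).Adj Z₂₃ W ∧
      ¬ (iGraph G).Adj X W ∧ ¬ (iGraph G).Adj Y₁ W ∧ ¬ (iGraph G).Adj Y₂ W ∧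
      ¬ (iGraph G).Adj Y₃ W := by
  obtain ⟨x₁, y₁, hx1, hy1, hyY1, hxY1, e1, hY1⟩ := adj_data h1
  obtain ⟨x₂, y₂, hx2, hy2, hyY2, hxY2, e2, hY2⟩ := adj_data h2
  obtain ⟨x₃, y₃, hx3, hy3, hyY3, hxY3, e3, hY3⟩ := adj_data h3
  obtain ⟨xn12, yn12, u12, v12, hZ12⟩ :=
    square hx1 hy1 e1 hY1 hx2 hy2 e2 hY2 n12 m12 a12 b12 x12
  obtain ⟨xn13, yn13, u13, v13, hZ13⟩ :=
    square hx1 hy1 e1 hY1 hx3 hy3 e3 hY3 n13 m13 a13 b13 x13
  obtain ⟨xn23, yn23, u23, v23, hZ23⟩ :=
    square hx2 hy2 e2 hY2 hx3 hy3 e3 hY3 n23 m23 a23 b23 x23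
  set R := ((X.1.erase x₁).erase x₂).erase x₃ with hR
  set T := insert y₁ (insert y₂ (insert y₃ R)) with hT
  have hRX : ∀ w ∈ R, w ∈ X.1 ∧ w ≠ x₁ ∧ w ≠ x₂ ∧ w ≠ x₃ := by
    intro w hw
    simp only [hR, mem_erase] at hw
    exact ⟨hw.2.2.2, hw.2.2.1, hw.2.1, hw.1⟩
  have hy1R : y₁ ∉ R := fun h => hy1 (hRX _ h).1
  have hy2R : y₂ ∉ R := fun h => hy2 (hRX _ h).1
  have hy3R : y₃ ∉ R := fun h => hy3 (hRX _ h).1
  have hR1 : ∀ w ∈ R, w ∈ Y₁.1 := fun w hw => by
    rw [hY1]; exact mem_insert_of_mem (mem_erase.mpr ⟨(hRX w hw).2.1, (hRX w hw).1⟩)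
  have hR2 : ∀ w ∈ R, w ∈ Y₂.1 := fun w hw => by
    rw [hY2]; exact mem_insert_of_mem (mem_erase.mpr ⟨(hRX w hw).2.2.1, (hRX w hw).1⟩)
  have hR3 : ∀ w ∈ R, w ∈ Y₃.1 := fun w hw => by
    rw [hY3]; exact mem_insert_of_mem (mem_erase.mpr ⟨(hRX w hw).2.2.2, (hRX w hw).1⟩)
  -- `T` is independent
  have hind : ∀ u ∈ T, ∀ v ∈ T, ¬ G.Adj u v := by
    have s1 : ∀ w ∈ R, ¬ G.Adj y₁ w := fun w hw => Y₁.2.1.1 _ hyY1 _ (hR1 w hw)
    have s2 : ∀ w ∈ R, ¬ G.Adj y₂ w := fun w hw => Y₂.2.1.1 _ hyY2 _ (hR2 w hw)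
    have s3 : ∀ w ∈ R, ¬ G.Adj y₃ w := fun w hw => Y₃.2.1.1 _ hyY3 _ (hR3 w hw)
    have s0 : ∀ w ∈ R, ∀ w' ∈ R, ¬ G.Adj w w' := fun w hw w' hw' =>
      X.2.1.1 _ (hRX w hw).1 _ (hRX w' hw').1
    have t12 : ¬ G.Adj y₁ y₂ := Z₁₂.2.1.1 _ u12 _ v12
    have t13 : ¬ G.Adj y₁ y₃ := Z₁₃.2.1.1 _ u13 _ v13
    have t23 : ¬ G.Adj y₂ y₃ := Z₂₃.2.1.1 _ u23 _ v23
    intro u hu v hv
    simp only [hT, mem_insert] at hu hv
    rcases hu with rfl | rfl | rfl | hu <;> rcases hv with rfl | rfl | rfl | hv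
    · exact G.loopless.irrefl _
    · exact t12
    · exact t13
    · exact s1 v hv
    · exact fun h => t12 h.symm
    · exact G.loopless.irrefl _
    · exact t23
    · exact s2 v hv
    · exact fun h => t13 h.symm
    · exact fun h => t23 h.symm
    · exact G.loopless.irrefl _
    · exact s3 v hv
    · exact fun h => s1 u hu h.symm
    · exact fun h => s2 u hu h.symm
    · exact fun h => s3 u hu h.symm
    · exact s0 u hu v hv
  have hcardR : R.card + 3 = X.1.card := by
    have c1 := card_erase_add_one hx1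
    have c2 := card_erase_add_one (mem_erase.mpr ⟨xn12.symm, hx2⟩ : x₂ ∈ X.1.erase x₁)
    have c3 := card_erase_add_one
      (mem_erase.mpr ⟨xn23.symm, mem_erase.mpr ⟨xn13.symm, hx3⟩⟩ : x₃ ∈ (X.1.erase x₁).erase x₂)
    rw [hR]; omega
  have hcardT : T.card = X.1.card := by
    rw [hT, card_insert_of_notMem, card_insert_of_notMem, card_insert_of_notMem hy3R]
    · omega
    · simp only [mem_insert, not_or]; exact ⟨yn23, hy2R⟩
    · simp only [mem_insert, not_or]; exact ⟨yn12, yn13, hy1R⟩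
  -- a maximal independent set containing `T` has size `|X| = |T|`, so it is `T`
  have hmax : IsIndDom G T := by
    refine ⟨hind, ?_⟩
    classical
    -- independent supersets of `T`
    let P : Finset (Finset V) := univ.filter fun S => T ⊆ S ∧ ∀ u ∈ S, ∀ v ∈ S, ¬ G.Adj u v
    have hTP : T ∈ P := by simp only [P, mem_filter, mem_univ, true_and]; exact ⟨Subset.rfl, hind⟩
    obtain ⟨S, hSP, hSmax⟩ := exists_max_image P card ⟨T, hTP⟩
    simp only [P, mem_filter, mem_univ, true_and] at hSP hSmax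
    have hSdom : IsIndDom G S := by
      refine ⟨hSP.2, fun v hv => ?_⟩
      by_contra hcon
      push Not at hcon
      have h1 : T ⊆ insert v S := hSP.1.trans (subset_insert _ _)
      have h2 : ∀ u ∈ insert v S, ∀ w ∈ insert v S, ¬ G.Adj u w := by
        intro u hu w hw
        rw [mem_insert] at hu hw
        rcases hu with rfl | hu <;> rcases hw with rfl | hw
        · exact G.loopless.irrefl _
        · exact fun h => hcon w hw h.symm
        · exact hcon u hu
        · exact hSP.2 u hu w hw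
      have h3 := hSmax _ ⟨h1, h2⟩
      rw [card_insert_of_notMem hv] at h3
      omega
    have hcS : S.card = X.1.card := hG S X.1 hSdom X.2.1
    have hTS : T = S := eq_of_subset_of_card_le hSP.1 (by omega)
    rw [hTS]
    exact hSdom.2
  have hISet : IsISet G T := ⟨hmax, fun S hS => by rw [hG T S hmax hS]⟩
  have eX : X.1 ∩ T = R := by
    ext w
    simp only [mem_inter, hT, mem_insert]
    constructor
    · rintro ⟨hw, rfl | rfl | rfl | h⟩
      · exact absurd hw hy1
      · exact absurd hw hy2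
      · exact absurd hw hy3
      · exact h
    · intro hw; exact ⟨(hRX w hw).1, by tauto⟩
  have eY1 : Y₁.1 ∩ T = insert y₁ R := by
    ext w
    simp only [mem_inter, hT, mem_insert]
    constructor
    · rintro ⟨hw, rfl | rfl | rfl | h⟩
      · exact Or.inl rfl
      · rw [hY1, mem_insert, mem_erase] at hw
        rcases hw with h | h
        · exact absurd h.symm yn12
        · exact absurd h.2 hy2
      · rw [hY1, mem_insert, mem_erase] at hw
        rcases hw with h | h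
        · exact absurd h.symm yn13
        · exact absurd h.2 hy3
      · exact Or.inr h
    · rintro (rfl | hw)
      · exact ⟨hyY1, Or.inl rfl⟩
      · exact ⟨hR1 w hw, by tauto⟩
  have eY2 : Y₂.1 ∩ T = insert y₂ R := by
    ext w
    simp only [mem_inter, hT, mem_insert]
    constructor
    · rintro ⟨hw, rfl | rfl | rfl | h⟩
      · rw [hY2, mem_insert, mem_erase] at hw
        rcases hw with h | h
        · exact absurd h yn12
        · exact absurd h.2 hy1
      · exact Or.inl rfl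
      · rw [hY2, mem_insert, mem_erase] at hw
        rcases hw with h | h
        · exact absurd h.symm yn23
        · exact absurd h.2 hy3
      · exact Or.inr h
    · rintro (rfl | hw)
      · exact ⟨hyY2, Or.inr (Or.inl rfl)⟩
      · exact ⟨hR2 w hw, by tauto⟩
  have eY3 : Y₃.1 ∩ T = insert y₃ R := by
    ext w
    simp only [mem_inter, hT, mem_insert]
    constructor
    · rintro ⟨hw, rfl | rfl | rfl | h⟩
      · rw [hY3, mem_insert, mem_erase] at hw
        rcases hw with h | h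
        · exact absurd h yn13
        · exact absurd h.2 hy1
      · rw [hY3, mem_insert, mem_erase] at hw
        rcases hw with h | h
        · exact absurd h yn23
        · exact absurd h.2 hy2
      · exact Or.inl rfl
      · exact Or.inr h
    · rintro (rfl | hw)
      · exact ⟨hyY3, Or.inr (Or.inr (Or.inl rfl))⟩
      · exact ⟨hR3 w hw, by tauto⟩
  have cY1 : Y₁.1.card = X.1.card := card_eq_of_isISet Y₁.2 X.2
  have cY2 : Y₂.1.card = X.1.card := card_eq_of_isISet Y₂.2 X.2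
  have cY3 : Y₃.1.card = X.1.card := card_eq_of_isISet Y₃.2 X.2
  refine ⟨⟨T, hISet⟩, ?_, ?_, ?_, ?_, ?_, ?_, ?_⟩
  · -- `Z₁₂ - x₃ + y₃`
    refine adj_of x₃ y₃ ?_ ?_ ?_
    · rw [hZ12]
      exact mem_insert_of_mem (mem_insert_of_mem (mem_erase.mpr ⟨xn23.symm,
        mem_erase.mpr ⟨xn13.symm, hx3⟩⟩))
    · rw [hZ12]
      simp only [mem_insert, mem_erase, not_or, not_and]
      exact ⟨yn23.symm, yn13.symm, fun _ _ => hy3⟩
    · show T = _
      rw [hZ12]
      ext w
      simp only [hT, hR, mem_insert, mem_erase]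
      have f1 : x₃ ≠ y₁ := by rintro rfl; exact hy1 hx3
      have f2 : x₃ ≠ y₂ := by rintro rfl; exact hy2 hx3
      constructor
      · rintro (rfl | rfl | rfl | ⟨h, h', h'', h'''⟩)
        · exact Or.inr ⟨f1.symm, Or.inr (Or.inl rfl)⟩
        · exact Or.inr ⟨f2.symm, Or.inl rfl⟩
        · exact Or.inl rfl
        · exact Or.inr ⟨h, Or.inr (Or.inr ⟨h', h'', h'''⟩)⟩
      · rintro (rfl | ⟨h, rfl | rfl | ⟨h', h'', h'''⟩⟩)
        · exact Or.inr (Or.inr (Or.inl rfl))
        · exact Or.inr (Or.inl rfl)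
        · exact Or.inl rfl
        · exact Or.inr (Or.inr (Or.inr ⟨h, h', h'', h'''⟩))
  · -- `Z₁₃ - x₂ + y₂`
    refine adj_of x₂ y₂ ?_ ?_ ?_
    · rw [hZ13]
      exact mem_insert_of_mem (mem_insert_of_mem (mem_erase.mpr ⟨xn23,
        mem_erase.mpr ⟨xn12.symm, hx2⟩⟩))
    · rw [hZ13]
      simp only [mem_insert, mem_erase, not_or, not_and]
      exact ⟨yn23, yn12.symm, fun _ _ => hy2⟩
    · show T = _
      rw [hZ13]
      ext w
      simp only [hT, hR, mem_insert, mem_erase]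
      have f1 : x₂ ≠ y₁ := by rintro rfl; exact hy1 hx2
      have f2 : x₂ ≠ y₃ := by rintro rfl; exact hy3 hx2
      constructor
      · rintro (rfl | rfl | rfl | ⟨h, h', h'', h'''⟩)
        · exact Or.inr ⟨f1.symm, Or.inr (Or.inl rfl)⟩
        · exact Or.inl rfl
        · exact Or.inr ⟨f2.symm, Or.inl rfl⟩
        · exact Or.inr ⟨h', Or.inr (Or.inr ⟨h, h'', h'''⟩)⟩
      · rintro (rfl | ⟨h, rfl | rfl | ⟨h', h'', h'''⟩⟩)
        · exact Or.inr (Or.inl rfl)
        · exact Or.inr (Or.inr (Or.inl rfl))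
        · exact Or.inl rfl
        · exact Or.inr (Or.inr (Or.inr ⟨h', h, h'', h'''⟩))
  · -- `Z₂₃ - x₁ + y₁`
    refine adj_of x₁ y₁ ?_ ?_ ?_
    · rw [hZ23]
      exact mem_insert_of_mem (mem_insert_of_mem (mem_erase.mpr ⟨xn13,
        mem_erase.mpr ⟨xn12, hx1⟩⟩))
    · rw [hZ23]
      simp only [mem_insert, mem_erase, not_or, not_and]
      exact ⟨yn13, yn12, fun _ _ => hy1⟩
    · show T = _
      rw [hZ23]
      ext w
      simp only [hT, hR, mem_insert, mem_erase]
      have f1 : x₁ ≠ y₂ := by rintro rfl; exact hy2 hx1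
      have f2 : x₁ ≠ y₃ := by rintro rfl; exact hy3 hx1
      constructor
      · rintro (rfl | rfl | rfl | ⟨h, h', h'', h'''⟩)
        · exact Or.inl rfl
        · exact Or.inr ⟨f1.symm, Or.inr (Or.inl rfl)⟩
        · exact Or.inr ⟨f2.symm, Or.inl rfl⟩
        · exact Or.inr ⟨h'', Or.inr (Or.inr ⟨h, h', h'''⟩)⟩
      · rintro (rfl | ⟨h, rfl | rfl | ⟨h', h'', h'''⟩⟩)
        · exact Or.inl rfl
        · exact Or.inr (Or.inr (Or.inl rfl))
        · exact Or.inr (Or.inl rfl)
        · exact Or.inr (Or.inr (Or.inr ⟨h', h'', h, h'''⟩))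
  · rw [adj_iff_card]
    change ¬ ((X.1 ∩ T).card + 1 = _)
    rw [eX]; omega
  · rw [adj_iff_card]
    change ¬ ((Y₁.1 ∩ T).card + 1 = _)
    rw [eY1, card_insert_of_notMem hy1R]; omega
  · rw [adj_iff_card]
    change ¬ ((Y₂.1 ∩ T).card + 1 = _)
    rw [eY2, card_insert_of_notMem hy2R]; omega
  · rw [adj_iff_card]
    change ¬ ((Y₃.1 ∩ T).card + 1 = _)
    rw [eY3, card_insert_of_notMem hy3R]; omega

end Pool.Agent.Lib.MP_89d95d_co_h37
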