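import Mathlib

/-!
# i-graphs and well-covered graphs (definitions)
-/

set_option autoImplicit false

namespace Pool.Agent.Lib.MP_89d95d_co_h37

/-- `S` is an independent dominating set of `G` (equivalently, a maximal independent set). -/
def IsIndDom {V : Type} (G : SimpleGraph V) (S : Finset V) : Prop :=
  (∀ u ∈ S, ∀ v ∈ S, ¬ G.Adj u v) ∧ ∀ v, v ∉ S → ∃ u ∈ S, G.Adj u v

/-- `S` is an `i`-set of `G`: an independent dominating set of the least possible size `i(G)`. -/
def IsISet {V : Type} (G : SimpleGraph V) (S : Finset V) : Prop :=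
  IsIndDom G S ∧ ∀ T, IsIndDom G T → S.card ≤ T.card

/-- `G` is well-covered: all its maximal independent sets have the same size. -/
def WellCovered {V : Type} (G : SimpleGraph V) : Prop :=
  ∀ S T, IsIndDom G S → IsIndDom G T → S.card = T.card

/-- The `i`-graph of `G`: the vertices are the `i`-sets, and two different `i`-sets `X`, `Y` are
adjacent when `Y = (X \ {u}) ∪ {v}` for some `u ∈ X`, `v ∈ Y` with `uv` an edge of `G`. -/
def iGraph {V : Type} [DecidableEq V] (G : SimpleGraph V) :
    SimpleGraph {S : Finset V // IsISet G S} where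
  Adj X Y := X ≠ Y ∧ ∃ u ∈ X.1, ∃ v ∈ Y.1, G.Adj u v ∧ Y.1 = insert v (X.1.erase u)
  symm := ⟨by
    rintro X Y ⟨hne, u, hu, v, hv, huv, hY⟩
    have hvX : v ∉ X.1 := fun h => X.2.1.1 u hu v h huv
    refine ⟨hne.symm, v, hv, u, hu, huv.symm, ?_⟩
    rw [hY, Finset.erase_insert (fun h => hvX (Finset.mem_of_mem_erase h)),
      Finset.insert_erase hu]⟩
  loopless := ⟨fun _ h => h.1 rfl⟩

/-- The hypercube graph `Q_n`: the `n`-tuples of bits, two of them being adjacent when they differ
in exactly one coordinate. -/
def cube (n : ℕ) : SimpleGraph (Fin n → Bool) where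
  Adj x y := ∃! i, x i ≠ y i
  symm := ⟨fun _ _ h => by simpa [ne_comm] using h⟩
  loopless := ⟨fun _ h => by simp at h⟩

/-- The graph `Q_n` minus a vertex: the `n`-tuples of bits other than the all-`true` tuple, two of
them being adjacent when they differ in exactly one coordinate. -/
def puncturedCube (n : ℕ) : SimpleGraph {x : Fin n → Bool // x ≠ fun _ => true} where
  Adj x y := ∃! i, x.1 i ≠ y.1 i
  symm := ⟨fun _ _ h => by simpa [ne_comm] using h⟩
  loopless := ⟨fun _ h => by simp at h⟩

end Pool.Agent.Lib.MP_89d95d_co_h37
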