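import Pool.Agent.Lib.MP_89d95d_co_h37.Cube

/-!
# Punctured 3-cubes extend to 3-cubes
-/

set_option autoImplicit false

namespace Pool.Agent.Lib.MP_89d95d_co_h37

open Finset

instance decAdj3 (x y : Fin 3 → Bool) : Decidable (∃! i, x i ≠ y i) :=
  decidable_of_iff (∃ i, x i ≠ y i ∧ ∀ j, x j ≠ y j → j = i) Iff.rfl

/-- An induced copy of `Q_3` minus a vertex in the `i`-graph of a well-covered graph extends to an
induced copy of `Q_3`. -/
theorem extend_cube {V : Type} [Fintype V] [DecidableEq V] (G : SimpleGraph V)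
    (hG : WellCovered G) (f : puncturedCube 3 ↪g iGraph G) :
    ∃ g : cube 3 ↪g iGraph G, ∀ (x : Fin 3 → Bool) (hx : x ≠ fun _ => true), g x = f ⟨x, hx⟩ := by
  let P := {x : Fin 3 → Bool // x ≠ fun _ => true}
  let X : P := ⟨![false, false, false], by decide⟩
  let Y₁ : P := ⟨![true, false, false], by decide⟩
  let Y₂ : P := ⟨![false, true, false], by decide⟩
  let Y₃ : P := ⟨![false, false, true], by decide⟩
  let Z₁₂ : P := ⟨![true, true, false], by decide⟩
  let Z₁₃ : P := ⟨![true, false, true], by decide⟩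
  let Z₂₃ : P := ⟨![false, true, true], by decide⟩
  have adj : ∀ {x y : P}, (∃! i, x.1 i ≠ y.1 i) → (iGraph G).Adj (f x) (f y) :=
    fun h => f.map_adj_iff.mpr h
  have nadj : ∀ {x y : P}, ¬ (∃! i, x.1 i ≠ y.1 i) → ¬ (iGraph G).Adj (f x) (f y) :=
    fun h h' => h (f.map_adj_iff.mp h')
  have hne : ∀ {x y : P}, x ≠ y → f x ≠ f y := fun h h' => h (f.injective h')
  obtain ⟨W, w12, w13, w23, wX, w1, w2, w3⟩ := cube_completion hG (X := f X) (Y₁ := f Y₁)
    (Y₂ := f Y₂) (Y₃ := f Y₃) (Z₁₂ := f Z₁₂) (Z₁₃ := f Z₁₃) (Z₂₃ := f Z₂₃)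
    (adj (by decide)) (adj (by decide)) (adj (by decide))
    (hne (by decide)) (hne (by decide)) (hne (by decide))
    (nadj (by decide)) (nadj (by decide)) (nadj (by decide))
    (adj (by decide)) (adj (by decide)) (hne (by decide))
    (adj (by decide)) (adj (by decide)) (hne (by decide))
    (adj (by decide)) (adj (by decide)) (hne (by decide))
  have all : ∀ y : P, y = X ∨ y = Y₁ ∨ y = Y₂ ∨ y = Y₃ ∨ y = Z₁₂ ∨ y = Z₁₃ ∨ y = Z₂₃ := by decide
  have hW : ∀ y : P, W ≠ f y := by
    intro y hy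
    rcases all y with rfl | rfl | rfl | rfl | rfl | rfl | rfl
    · exact nadj (x := Z₁₂) (y := X) (by decide) (hy ▸ w12)
    · exact nadj (x := Z₂₃) (y := Y₁) (by decide) (hy ▸ w23)
    · exact nadj (x := Z₁₃) (y := Y₂) (by decide) (hy ▸ w13)
    · exact nadj (x := Z₁₂) (y := Y₃) (by decide) (hy ▸ w12)
    · exact w12.ne hy.symm
    · exact w13.ne hy.symm
    · exact w23.ne hy.symm
  have hWadj : ∀ y : P, (iGraph G).Adj (f y) W ↔ ∃! i, y.1 i ≠ true := by
    intro y
    rcases all y with rfl | rfl | rfl | rfl | rfl | rfl | rfl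
    · exact ⟨fun h => (wX h).elim, fun h => absurd h (by decide)⟩
    · exact ⟨fun h => (w1 h).elim, fun h => absurd h (by decide)⟩
    · exact ⟨fun h => (w2 h).elim, fun h => absurd h (by decide)⟩
    · exact ⟨fun h => (w3 h).elim, fun h => absurd h (by decide)⟩
    · exact ⟨fun _ => by decide, fun _ => w12⟩
    · exact ⟨fun _ => by decide, fun _ => w13⟩
    · exact ⟨fun _ => by decide, fun _ => w23⟩
  classical
  let g : (Fin 3 → Bool) → {S : Finset V // IsISet G S} :=
    fun x => if hx : x = fun _ => true then W else f ⟨x, hx⟩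
  have g1 : ∀ x, x = (fun _ => true) → g x = W := fun x hx => dif_pos hx
  have g2 : ∀ x (hx : x ≠ fun _ => true), g x = f ⟨x, hx⟩ := fun x hx => dif_neg hx
  refine ⟨⟨⟨g, ?_⟩, ?_⟩, g2⟩
  · intro x y hxy
    by_cases hx : x = fun _ => true <;> by_cases hy : y = fun _ => true
    · rw [hx, hy]
    · rw [g1 x hx, g2 y hy] at hxy; exact (hW _ hxy).elim
    · rw [g2 x hx, g1 y hy] at hxy; exact (hW _ hxy.symm).elim
    · rw [g2 x hx, g2 y hy] at hxy
      exact congrArg Subtype.val (f.injective hxy)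
  · intro x y
    change (iGraph G).Adj (g x) (g y) ↔ ∃! i, x i ≠ y i
    by_cases hx : x = fun _ => true <;> by_cases hy : y = fun _ => true
    · rw [g1 x hx, g1 y hy, hx, hy]
      exact ⟨fun h => (h.ne rfl).elim, fun h => by simp at h⟩
    · rw [g1 x hx, g2 y hy, (iGraph G).adj_comm, hWadj, hx]
      simp only [ne_comm]
    · rw [g2 x hx, g1 y hy, hWadj, hy]
    · rw [g2 x hx, g2 y hy]
      exact f.map_adj_iff

end Pool.Agent.Lib.MP_89d95d_co_h37
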