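import Pool.Agent.Lib.MP_89d95d_co_h37.LabelDefs
import Pool.Agent.Lib.MP_89d95d_co_h37.Cube

/-!
# Graphs with a well-covered seed are the graphs with a Helly labelling
-/

set_option autoImplicit false

namespace Pool.Agent.Lib.MP_89d95d_co_h37

open Finset

variable {V : Type} {G : SimpleGraph V}

variable [DecidableEq V]

/-- Every independent set of a finite graph extends to an independent dominating set. -/
lemma exists_indDom [Fintype V] {K : Finset V} (hK : ∀ u ∈ K, ∀ v ∈ K, ¬ G.Adj u v) :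
    ∃ S, IsIndDom G S ∧ K ⊆ S := by
  classical
  let P : Finset (Finset V) := univ.filter fun S => K ⊆ S ∧ ∀ u ∈ S, ∀ v ∈ S, ¬ G.Adj u v
  have hKP : K ∈ P := by simp only [P, mem_filter, mem_univ, true_and]; exact ⟨Subset.rfl, hK⟩
  obtain ⟨S, hSP, hSmax⟩ := exists_max_image P card ⟨K, hKP⟩
  simp only [P, mem_filter, mem_univ, true_and] at hSP hSmax
  refine ⟨S, ⟨hSP.2, fun v hv => ?_⟩, hSP.1⟩
  by_contra hcon
  push Not at hcon
  have h1 : K ⊆ insert v S := hSP.1.trans (subset_insert _ _)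
  have h2 : ∀ u ∈ insert v S, ∀ w ∈ insert v S, ¬ G.Adj u w := by
    intro u hu w hw
    rw [mem_insert] at hu hw
    rcases hu with rfl | hu <;> rcases hw with rfl | hw
    · exact G.loopless.irrefl _
    · exact fun h => hcon w hw h.symm
    · exact hcon u hu
    · exact hSP.2 u hu w hw
  have h3 := hSmax _ ⟨h1, h2⟩
  rw [card_insert_of_notMem hv] at h3
  omega

/-- A graph with a well-covered seed has a Helly labelling. -/
theorem labelling_of_seed {W : Type} {H : SimpleGraph W} [Fintype V] (hG : WellCovered G)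
    (φ : H ≃g iGraph G) : ∃ (r : ℕ) (F : W → Finset V), IsHellyLabelling H r F := by
  obtain ⟨S₀, hS₀, -⟩ := exists_indDom (G := G) (K := ∅) (by simp)
  have hall : ∀ S, IsIndDom G S → IsISet G S := fun S hS => ⟨hS, fun T hT => (hG S T hS hT).le⟩
  have hcard : ∀ v, (φ v).1.card = S₀.card := fun v => hG _ _ (φ v).2.1 hS₀
  have helly : ∀ K : Finset V, (∀ x ∈ K, ∀ y ∈ K, ∃ v, x ∈ (φ v).1 ∧ y ∈ (φ v).1) →
      ∃ v, K ⊆ (φ v).1 := by
    intro K hK
    have hind : ∀ u ∈ K, ∀ v ∈ K, ¬ G.Adj u v := by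
      intro u hu v hv huv
      obtain ⟨w, h1, h2⟩ := hK u hu v hv
      exact (φ w).2.1.1 u h1 v h2 huv
    obtain ⟨S, hS, hKS⟩ := exists_indDom hind
    obtain ⟨v, hv⟩ := φ.surjective ⟨S, hall S hS⟩
    exact ⟨v, by rw [hv]; exact hKS⟩
  refine ⟨S₀.card, fun v => (φ v).1, ?_, hcard, ?_, ?_, helly⟩
  · intro v w h
    exact φ.injective (Subtype.ext h)
  · intro x
    obtain ⟨S, hS, hKS⟩ := exists_indDom (G := G) (K := {x}) (by
      intro u hu v hv
      rw [mem_singleton] at hu hv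
      subst hu; subst hv
      exact G.loopless.irrefl _)
    obtain ⟨v, hv⟩ := φ.surjective ⟨S, hall S hS⟩
    exact ⟨v, by change x ∈ (φ v).1; rw [hv]; exact hKS (mem_singleton_self x)⟩
  · intro v w hvw
    rw [← hcard v, ← adj_iff_card]
    exact φ.map_adj_iff.symm

/-- The seed graph of a Helly labelling: two labels are adjacent when they never occur
together. -/
def seed {W L : Type} (F : W → Finset L) (hused : ∀ x, ∃ v, x ∈ F v) : SimpleGraph L where
  Adj x y := ∀ v, ¬ (x ∈ F v ∧ y ∈ F v)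
  symm := ⟨fun _ _ h v hv => h v ⟨hv.2, hv.1⟩⟩
  loopless := ⟨fun x h => by
    obtain ⟨v, hv⟩ := hused x
    exact h v ⟨hv, hv⟩⟩

/-- A graph with a Helly labelling has a well-covered seed. -/
theorem seed_of_labelling {W L : Type} [DecidableEq L] {H : SimpleGraph W} [Nonempty W] {r : ℕ}
    {F : W → Finset L} (hF : IsHellyLabelling H r F) :
    WellCovered (seed F hF.2.2.1) ∧ Nonempty (H ≃g iGraph (seed F hF.2.2.1)) := by
  obtain ⟨hinj, hcard, hused, hadj, helly⟩ := hF
  set G := seed F hused with hG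
  have hind : ∀ v, ∀ x ∈ F v, ∀ y ∈ F v, ¬ G.Adj x y := fun v x hx y hy h => h v ⟨hx, hy⟩
  have hdom : ∀ v, IsIndDom G (F v) := by
    intro v
    refine ⟨hind v, fun x hx => ?_⟩
    by_contra hcon
    push Not at hcon
    have h1 : ∀ y ∈ F v, ∃ w, y ∈ F w ∧ x ∈ F w := by
      intro y hy
      by_contra hno
      push Not at hno
      exact hcon y hy (fun w hw => hno w hw.1 hw.2)
    obtain ⟨u, hu⟩ := helly (insert x (F v)) (by
      intro y hy z hz
      rw [mem_insert] at hy hz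
      rcases hy with hy | hy <;> rcases hz with hz | hz
      · obtain ⟨w, hw⟩ := hused x; exact ⟨w, hy ▸ hw, hz ▸ hw⟩
      · obtain ⟨w, h2, h3⟩ := h1 z hz; exact ⟨w, hy ▸ h3, h2⟩
      · obtain ⟨w, h2, h3⟩ := h1 y hy; exact ⟨w, h2, hz ▸ h3⟩
      · exact ⟨v, hy, hz⟩)
    have h2 := card_le_card hu
    rw [card_insert_of_notMem hx, hcard, hcard] at h2
    omega
  have hall : ∀ S, IsIndDom G S → ∃ v, F v = S := by
    intro S hS
    obtain ⟨v, hv⟩ := helly S (by
      intro x hx y hy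
      by_contra hno
      push Not at hno
      exact hS.1 x hx y hy (fun w hw => hno w hw.1 hw.2))
    refine ⟨v, Subset.antisymm (fun x hx => ?_) hv⟩
    by_contra hxS
    obtain ⟨u, hu, hux⟩ := hS.2 x hxS
    exact hind v u (hv hu) x hx hux
  have hWC : WellCovered G := by
    intro S T hS hT
    obtain ⟨v, rfl⟩ := hall S hS
    obtain ⟨w, rfl⟩ := hall T hT
    rw [hcard, hcard]
  have hI : ∀ v, IsISet G (F v) := fun v => ⟨hdom v, fun T hT => (hWC _ _ (hdom v) hT).le⟩
  let f : W → {S : Finset L // IsISet G S} := fun v => ⟨F v, hI v⟩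
  have hf : Function.Bijective f := by
    constructor
    · intro v w h
      exact hinj (congrArg Subtype.val h)
    · rintro ⟨S, hS⟩
      obtain ⟨v, hv⟩ := hall S hS.1
      exact ⟨v, Subtype.ext hv⟩
  have hfa : ∀ v w, (iGraph G).Adj (f v) (f w) ↔ H.Adj v w := by
    intro v w
    by_cases hvw : v = w
    · subst hvw
      exact ⟨fun h => absurd rfl h.1, fun h => absurd rfl h.ne⟩
    · rw [adj_iff_card, hadj v w hvw]
      change (F v ∩ F w).card + 1 = (F v).card ↔ _
      rw [hcard]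
  exact ⟨hWC, ⟨⟨Equiv.ofBijective f hf, fun {v w} => hfa v w⟩⟩⟩

/-- A finite nonempty graph has a (finite) well-covered seed if and only if it has a Helly
labelling. -/
theorem wellCovered_seed_iff {W : Type} [Finite W] [Nonempty W] (H : SimpleGraph W) :
    (∃ (V : Type) (_ : Fintype V) (_ : DecidableEq V) (G : SimpleGraph V),
      WellCovered G ∧ Nonempty (H ≃g iGraph G)) ↔
    ∃ (L : Type) (_ : Fintype L) (_ : DecidableEq L) (r : ℕ) (F : W → Finset L),
      IsHellyLabelling H r F := by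
  constructor
  · rintro ⟨V, i1, i2, G, hG, ⟨φ⟩⟩
    obtain ⟨r, F, hF⟩ := labelling_of_seed hG φ
    exact ⟨V, i1, i2, r, F, hF⟩
  · rintro ⟨L, i1, i2, r, F, hF⟩
    obtain ⟨h1, h2⟩ := seed_of_labelling hF
    exact ⟨L, i1, i2, seed F hF.2.2.1, h1, h2⟩

end Pool.Agent.Lib.MP_89d95d_co_h37
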