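import Pool.Agent.Lib.MP_89d95d_co_h37.Defs

/-!
# Helly labellings (definition)
-/

set_option autoImplicit false

namespace Pool.Agent.Lib.MP_89d95d_co_h37

/-- A Helly labelling of the graph `H` with finite label set `L`: every vertex `v` gets a set `F v`
of exactly `r` labels, different vertices get different sets, every label is used, two different
vertices are adjacent exactly when they have exactly `r - 1` labels in common, and the family of
the sets `{v | x ∈ F v}`, `x ∈ L`, has the Helly property: if the labels of a set `K` occur
together in pairs then they occur all together at some vertex. -/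
def IsHellyLabelling {W L : Type} [DecidableEq L] (H : SimpleGraph W) (r : ℕ)
    (F : W → Finset L) : Prop :=
  Function.Injective F ∧ (∀ v, (F v).card = r) ∧ (∀ x, ∃ v, x ∈ F v) ∧
  (∀ v w, v ≠ w → (H.Adj v w ↔ (F v ∩ F w).card + 1 = r)) ∧
  ∀ K : Finset L, (∀ x ∈ K, ∀ y ∈ K, ∃ v, x ∈ F v ∧ y ∈ F v) → ∃ v, K ⊆ F v

end Pool.Agent.Lib.MP_89d95d_co_h37
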