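import Pool.Agent.Lib.MP_89d95d_co_h37.Cube

/-!
# The punctured cube is the `i`-graph of the subdivided star, but of no well-covered graph
-/

set_option autoImplicit false

namespace Pool.Agent.Lib.MP_89d95d_co_h37

open Finset

/-- The subdivided star: centre `none`, middle vertices `some (i, false)`, leaves
`some (i, true)`. -/
def substar (n : ℕ) : SimpleGraph (Option (Fin n × Bool)) where
  Adj x y := (∃ i, (x = some (i, true) ∧ y = some (i, false)) ∨
      (x = some (i, false) ∧ y = some (i, true))) ∨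
    (∃ i, (x = none ∧ y = some (i, false)) ∨ (x = some (i, false) ∧ y = none))
  symm := ⟨by
    rintro x y (⟨i, h | h⟩ | ⟨i, h | h⟩)
    · exact Or.inl ⟨i, Or.inr ⟨h.2, h.1⟩⟩
    · exact Or.inl ⟨i, Or.inl ⟨h.2, h.1⟩⟩
    · exact Or.inr ⟨i, Or.inr ⟨h.2, h.1⟩⟩
    · exact Or.inr ⟨i, Or.inl ⟨h.2, h.1⟩⟩⟩
  loopless := ⟨by
    rintro x (⟨i, ⟨h1, h2⟩ | ⟨h1, h2⟩⟩ | ⟨i, ⟨h1, h2⟩ | ⟨h1, h2⟩⟩) <;>
      rw [h1] at h2 <;> simp at h2⟩

variable {n : ℕ}

/-- The set chosen by a bit string. -/
def pick (x : Fin n → Bool) : Finset (Option (Fin n × Bool)) :=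
  univ.image fun i => some (i, x i)

lemma mem_pick {x : Fin n → Bool} {w : Option (Fin n × Bool)} :
    w ∈ pick x ↔ ∃ i, w = some (i, x i) := by
  simp [pick, eq_comm]

lemma some_mem_pick {x : Fin n → Bool} {i : Fin n} {b : Bool} :
    some (i, b) ∈ pick x ↔ x i = b := by
  rw [mem_pick]
  constructor
  · rintro ⟨j, hj⟩
    simp only [Option.some.injEq, Prod.mk.injEq] at hj
    obtain ⟨rfl, h⟩ := hj
    exact h.symm
  · intro h; exact ⟨i, by rw [h]⟩

lemma card_pick (x : Fin n → Bool) : (pick x).card = n := by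
  rw [pick, card_image_of_injective _ (fun i j h => by
    simp only [Option.some.injEq, Prod.mk.injEq] at h; exact h.1)]
  simp

lemma indDom_pick {x : Fin n → Bool} (hx : x ≠ fun _ => true) : IsIndDom (substar n) (pick x) := by
  constructor
  · intro u hu v hv huv
    rw [mem_pick] at hu hv
    obtain ⟨i, rfl⟩ := hu
    obtain ⟨j, rfl⟩ := hv
    rcases huv with ⟨k, ⟨h1, h2⟩ | ⟨h1, h2⟩⟩ | ⟨k, ⟨h1, h2⟩ | ⟨h1, h2⟩⟩
    · simp only [Option.some.injEq, Prod.mk.injEq] at h1 h2
      obtain ⟨rfl, h1⟩ := h1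
      obtain ⟨rfl, h2⟩ := h2
      rw [h1] at h2; exact absurd h2 (by simp)
    · simp only [Option.some.injEq, Prod.mk.injEq] at h1 h2
      obtain ⟨rfl, h1⟩ := h1
      obtain ⟨rfl, h2⟩ := h2
      rw [h1] at h2; exact absurd h2 (by simp)
    · simp at h1
    · simp at h2
  · intro v hv
    rcases v with _ | ⟨i, b⟩
    · obtain ⟨i, hi⟩ := Function.ne_iff.mp hx
      have hi' : x i = false := by simpa using hi
      refine ⟨some (i, false), some_mem_pick.mpr hi', Or.inr ⟨i, Or.inr ⟨rfl, rfl⟩⟩⟩
    · rw [some_mem_pick] at hv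
      refine ⟨some (i, x i), some_mem_pick.mpr rfl, ?_⟩
      rcases Bool.eq_false_or_eq_true b with rfl | rfl
      · have hxi : x i = false := by simpa using hv
        rw [hxi]; exact Or.inl ⟨i, Or.inr ⟨rfl, rfl⟩⟩
      · have hxi : x i = true := by simpa using hv
        rw [hxi]; exact Or.inl ⟨i, Or.inl ⟨rfl, rfl⟩⟩

/-- Every independent dominating set contains one of the two vertices of each ray. -/
lemma exists_mem {S : Finset (Option (Fin n × Bool))} (hS : IsIndDom (substar n) S) (i : Fin n) :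
    ∃ b, some (i, b) ∈ S := by
  by_contra hcon
  push Not at hcon
  obtain ⟨u, hu, huv⟩ := hS.2 _ (hcon true)
  rcases huv with ⟨k, ⟨h1, h2⟩ | ⟨h1, h2⟩⟩ | ⟨k, ⟨h1, h2⟩ | ⟨h1, h2⟩⟩
  · simp at h2
  · simp only [Option.some.injEq, Prod.mk.injEq, and_true] at h2
    subst h2
    exact hcon false (h1 ▸ hu)
  · simp at h2
  · simp at h2

lemma exists_pick_subset {S : Finset (Option (Fin n × Bool))} (hS : IsIndDom (substar n) S) :
    ∃ x : Fin n → Bool, pick x ⊆ S := by
  choose x hx using exists_mem hS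
  refine ⟨x, fun w hw => ?_⟩
  rw [mem_pick] at hw
  obtain ⟨i, rfl⟩ := hw
  exact hx i

lemma isISet_pick {x : Fin n → Bool} (hx : x ≠ fun _ => true) : IsISet (substar n) (pick x) := by
  refine ⟨indDom_pick hx, fun T hT => ?_⟩
  obtain ⟨y, hy⟩ := exists_pick_subset hT
  calc (pick x).card = (pick y).card := by rw [card_pick, card_pick]
    _ ≤ T.card := card_le_card hy

lemma eq_pick (hn : 1 ≤ n) {S : Finset (Option (Fin n × Bool))} (hS : IsISet (substar n) S) :
    ∃ x : Fin n → Bool, x ≠ (fun _ => true) ∧ pick x = S := by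
  obtain ⟨x, hx⟩ := exists_pick_subset hS.1
  have hne : (fun _ => false : Fin n → Bool) ≠ fun _ => true := by
    intro h
    simpa using congrFun h ⟨0, hn⟩
  have hc : S.card ≤ n := (hS.2 _ (indDom_pick hne)).trans_eq (card_pick _)
  have he : pick x = S := eq_of_subset_of_card_le hx (by rw [card_pick]; exact hc)
  refine ⟨x, ?_, he⟩
  rintro rfl
  have hnone : (none : Option (Fin n × Bool)) ∉ S := by
    rw [← he, mem_pick]; simp
  obtain ⟨u, hu, huv⟩ := hS.1.2 _ hnone
  rw [← he, mem_pick] at hu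
  obtain ⟨i, rfl⟩ := hu
  rcases huv with ⟨k, ⟨h1, h2⟩ | ⟨h1, h2⟩⟩ | ⟨k, ⟨h1, h2⟩ | ⟨h1, h2⟩⟩
  · simp at h2
  · simp at h2
  · simp at h1
  · simp at h1

lemma pick_injective : Function.Injective (pick (n := n)) := by
  intro x y h
  funext i
  have : some (i, x i) ∈ pick y := by rw [← h]; exact some_mem_pick.mpr rfl
  exact (some_mem_pick.mp this).symm

/-- The map from the punctured cube to the `i`-graph of the subdivided star. -/
def toISet (x : {x : Fin n → Bool // x ≠ fun _ => true}) :
    {S : Finset (Option (Fin n × Bool)) // IsISet (substar n) S} :=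
  ⟨pick x.1, isISet_pick x.2⟩

lemma toISet_bijective (hn : 1 ≤ n) : Function.Bijective (toISet (n := n)) := by
  constructor
  · intro x y h
    exact Subtype.ext (pick_injective (congrArg Subtype.val h))
  · rintro ⟨S, hS⟩
    obtain ⟨x, hx, he⟩ := eq_pick hn hS
    exact ⟨⟨x, hx⟩, Subtype.ext he⟩

lemma toISet_adj (x y : {x : Fin n → Bool // x ≠ fun _ => true}) :
    (iGraph (substar n)).Adj (toISet x) (toISet y) ↔ (puncturedCube n).Adj x y := by
  constructor
  · intro h
    obtain ⟨u, v, hu, hv, hv', hu', huv, hY⟩ := adj_data h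
    change u ∈ pick x.1 at hu
    change v ∈ pick y.1 at hv'
    change pick y.1 = insert v ((pick x.1).erase u) at hY
    rw [mem_pick] at hu hv'
    obtain ⟨i, rfl⟩ := hu
    obtain ⟨j, rfl⟩ := hv'
    have hij : i = j ∧ x.1 i ≠ y.1 i := by
      rcases huv with ⟨k, ⟨h1, h2⟩ | ⟨h1, h2⟩⟩ | ⟨k, ⟨h1, h2⟩ | ⟨h1, h2⟩⟩
      · simp only [Option.some.injEq, Prod.mk.injEq] at h1 h2
        obtain ⟨rfl, h1⟩ := h1
        obtain ⟨rfl, h2⟩ := h2
        exact ⟨rfl, by rw [h1, h2]; simp⟩
      · simp only [Option.some.injEq, Prod.mk.injEq] at h1 h2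
        obtain ⟨rfl, h1⟩ := h1
        obtain ⟨rfl, h2⟩ := h2
        exact ⟨rfl, by rw [h1, h2]; simp⟩
      · simp at h1
      · simp at h2
    obtain ⟨rfl, hne⟩ := hij
    refine ⟨i, hne, fun k hk => ?_⟩
    by_contra hki
    apply hk
    have h1 : some (k, y.1 k) ∈ pick y.1 := some_mem_pick.mpr rfl
    rw [hY, mem_insert, mem_erase] at h1
    rcases h1 with h1 | h1
    · simp only [Option.some.injEq, Prod.mk.injEq] at h1
      exact absurd h1.1 hki
    · exact some_mem_pick.mp h1.2
  · rintro ⟨i, hi, hu⟩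
    refine adj_of (some (i, x.1 i)) (some (i, y.1 i)) ?_ ?_ ?_
    · exact some_mem_pick.mpr rfl
    · change some (i, y.1 i) ∉ pick x.1
      rw [some_mem_pick]; exact hi
    · change pick y.1 = insert (some (i, y.1 i)) ((pick x.1).erase (some (i, x.1 i)))
      ext w
      rw [mem_insert, mem_erase]
      constructor
      · intro hw
        rw [mem_pick] at hw
        obtain ⟨k, rfl⟩ := hw
        by_cases hk : k = i
        · left; rw [hk]
        · right
          refine ⟨?_, ?_⟩
          · simp only [ne_eq, Option.some.injEq, Prod.mk.injEq, not_and]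
            exact fun h => absurd h hk
          · rw [some_mem_pick]
            by_contra h
            exact hk (hu k h)
      · rintro (rfl | ⟨h1, h2⟩)
        · exact some_mem_pick.mpr rfl
        · rw [mem_pick] at h2
          obtain ⟨k, rfl⟩ := h2
          rw [some_mem_pick]
          by_contra h
          have := hu k (fun h' => h h'.symm)
          subst this
          exact h1 rfl

/-- The punctured cube `Q_n - v` is the `i`-graph of the subdivided star. -/
theorem puncturedCube_iso (hn : 1 ≤ n) : Nonempty (puncturedCube n ≃g iGraph (substar n)) :=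
  ⟨⟨Equiv.ofBijective toISet (toISet_bijective hn), fun {x y} => toISet_adj x y⟩⟩

/-! ### The punctured cube has no well-covered seed -/

/-- The bit string with value `false` exactly on `A`. -/
def off (A : Finset (Fin n)) (hA : A.Nonempty) : {x : Fin n → Bool // x ≠ fun _ => true} :=
  ⟨fun i => decide (i ∉ A), by
    obtain ⟨i, hi⟩ := hA
    intro h
    have := congrFun h i
    simp [hi] at this⟩

lemma off_adj {A : Finset (Fin n)} (hA : A.Nonempty) {i : Fin n} (hi : i ∉ A)
    (hB : (insert i A).Nonempty) : (puncturedCube n).Adj (off (insert i A) hB) (off A hA) := by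
  refine ⟨i, by simp [off, hi], fun j hj => ?_⟩
  by_contra hji
  apply hj
  simp [off, hji]

lemma off_not_adj {A B : Finset (Fin n)} (hA : A.Nonempty) (hB : B.Nonempty) {i j : Fin n}
    (hij : i ≠ j) (hi : i ∈ A) (hi' : i ∉ B) (hj : j ∉ A) (hj' : j ∈ B) :
    ¬ (puncturedCube n).Adj (off A hA) (off B hB) := by
  rintro ⟨k, _, hk⟩
  have h1 := hk i (by simp [off, hi, hi'])
  have h2 := hk j (by simp [off, hj, hj'])
  exact hij (h1.trans h2.symm)

lemma off_ne {A B : Finset (Fin n)} (hA : A.Nonempty) (hB : B.Nonempty) {i : Fin n}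
    (hi : i ∈ A) (hi' : i ∉ B) : off A hA ≠ off B hB := by
  intro h
  have := congrFun (congrArg Subtype.val h) i
  simp [off, hi, hi'] at this

theorem no_wellCovered_seed {n : ℕ} (hn : 3 ≤ n) {V : Type} [Fintype V] [DecidableEq V]
    (G : SimpleGraph V) (hG : WellCovered G) : IsEmpty (puncturedCube n ≃g iGraph G) := by
  refine ⟨fun φ => ?_⟩
  let a : Fin n := ⟨0, by omega⟩
  let b : Fin n := ⟨1, by omega⟩
  let c : Fin n := ⟨2, by omega⟩
  have hab : a ≠ b := by simp [a, b]
  have hac : a ≠ c := by simp [a, c]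
  have hbc : b ≠ c := by simp [b, c]
  have nz : ∀ (i : Fin n) (A : Finset (Fin n)), (insert i A).Nonempty := fun i A =>
    insert_nonempty i A
  have ns : ∀ i : Fin n, ({i} : Finset (Fin n)).Nonempty := fun i => singleton_nonempty i
  let X := off {a, b, c} (nz _ _)
  let Y₁ := off {b, c} (nz _ _)
  let Y₂ := off {a, c} (nz _ _)
  let Y₃ := off {a, b} (nz _ _)
  let Z₁₂ := off {c} (ns c)
  let Z₁₃ := off {b} (ns b)
  let Z₂₃ := off {a} (ns a)
  have adj : ∀ {x y}, (puncturedCube n).Adj x y → (iGraph G).Adj (φ x) (φ y) :=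
    fun h => φ.map_adj_iff.mpr h
  have nadj : ∀ {x y}, ¬ (puncturedCube n).Adj x y → ¬ (iGraph G).Adj (φ x) (φ y) :=
    fun h h' => h (φ.map_adj_iff.mp h')
  have hne : ∀ {x y}, x ≠ y → φ x ≠ φ y := fun h h' => h (φ.injective h')
  have eX2 : X = off (insert b {a, c}) (nz _ _) := by
    apply Subtype.ext; funext i; simp only [X, off, mem_insert, mem_singleton]; congr 1
    apply propext; tauto
  have eX3 : X = off (insert c {a, b}) (nz _ _) := by
    apply Subtype.ext; funext i; simp only [X, off, mem_insert, mem_singleton]; congr 1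
    apply propext; tauto
  have eY1 : Y₁ = off (insert c {b}) (nz _ _) := by
    apply Subtype.ext; funext i; simp only [Y₁, off, mem_insert, mem_singleton]; congr 1
    apply propext; tauto
  have eY2 : Y₂ = off (insert c {a}) (nz _ _) := by
    apply Subtype.ext; funext i; simp only [Y₂, off, mem_insert, mem_singleton]; congr 1
    apply propext; tauto
  have eY3 : Y₃ = off (insert b {a}) (nz _ _) := by
    apply Subtype.ext; funext i; simp only [Y₃, off, mem_insert, mem_singleton]; congr 1
    apply propext; tauto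
  obtain ⟨W, w12, w13, w23, -⟩ := cube_completion hG (X := φ X) (Y₁ := φ Y₁) (Y₂ := φ Y₂)
    (Y₃ := φ Y₃) (Z₁₂ := φ Z₁₂) (Z₁₃ := φ Z₁₃) (Z₂₃ := φ Z₂₃)
    (adj (off_adj _ (by simp [hab, hac]) _))
    (adj (by rw [eX2]; exact off_adj _ (by simp [hab.symm, hbc]) _))
    (adj (by rw [eX3]; exact off_adj _ (by simp [hac.symm, hbc.symm]) _))
    (hne (off_ne (i := b) _ _ (by simp) (by simp [hab.symm, hbc])))
    (hne (off_ne (i := c) _ _ (by simp) (by simp [hac.symm, hbc.symm])))
    (hne (off_ne (i := c) _ _ (by simp) (by simp [hac.symm, hbc.symm])))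
    (nadj (off_not_adj (i := b) (j := a) _ _ hab.symm (by simp) (by simp [hab.symm, hbc])
      (by simp [hab, hac]) (by simp)))
    (nadj (off_not_adj (i := c) (j := a) _ _ hac.symm (by simp) (by simp [hac.symm, hbc.symm])
      (by simp [hab, hac]) (by simp)))
    (nadj (off_not_adj (i := c) (j := b) _ _ hbc.symm (by simp) (by simp [hac.symm, hbc.symm])
      (by simp [hab.symm, hbc]) (by simp)))
    (adj (off_adj _ (by simp [hbc]) _))
    (adj (off_adj _ (by simp [hac]) _))
    (hne (off_ne (i := a) _ _ (by simp) (by simp [hac])))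
    (adj (by rw [eY1]; exact off_adj _ (by simp [hbc.symm]) _))
    (adj (off_adj _ (by simp [hab]) _))
    (hne (off_ne (i := a) _ _ (by simp) (by simp [hab])))
    (adj (by rw [eY2]; exact off_adj _ (by simp [hac.symm]) _))
    (adj (by rw [eY3]; exact off_adj _ (by simp [hab.symm]) _))
    (hne (off_ne (i := b) _ _ (by simp) (by simp [hab.symm])))
  -- the preimage of `W` is a bit string adjacent to the three strings with a single `false`
  obtain ⟨w, rfl⟩ := φ.surjective W
  have q12 : (puncturedCube n).Adj Z₁₂ w := φ.map_adj_iff.mp w12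
  have q13 : (puncturedCube n).Adj Z₁₃ w := φ.map_adj_iff.mp w13
  have q23 : (puncturedCube n).Adj Z₂₃ w := φ.map_adj_iff.mp w23
  obtain ⟨j, hj⟩ := Function.ne_iff.mp w.2
  have hj' : w.1 j = false := by simpa using hj
  have key : ∀ k l : Fin n, k ≠ l → k ≠ j → l ≠ j →
      (puncturedCube n).Adj (off {k} (ns k)) w → (puncturedCube n).Adj (off {l} (ns l)) w →
      False := by
    intro k l hkl hkj hlj hk hl
    obtain ⟨i, hi, hu⟩ := hk
    have h1 : j = i := hu j (by simp [off, hj', hkj.symm])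
    have h2 : w.1 k = false := by
      by_contra h
      have h3 : k = i := hu k (by
        simp only [off, mem_singleton, not_true_eq_false, decide_false]
        intro h4; exact h h4.symm)
      exact hkj (h3.trans h1.symm)
    obtain ⟨i', hi', hu'⟩ := hl
    have h3 : j = i' := hu' j (by simp [off, hj', hlj.symm])
    have h4 : k = i' := hu' k (by simp [off, h2, hkl])
    exact hkj (h4.trans h3.symm)
  by_cases ja : a = j
  · exact key b c hbc (fun h => hab (ja.trans h.symm)) (fun h => hac (ja.trans h.symm)) q13 q12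
  · by_cases jb : b = j
    · exact key a c hac ja (fun h => hbc (jb.trans h.symm)) q23 q12
    · exact key a b hab ja jb q23 q13

end Pool.Agent.Lib.MP_89d95d_co_h37
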